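import Pool.Agent.Lib.MP_8815b4_co.Kernel

/-!
The complete intersection theorem for multisets with bounded multiplicity.
Rows and columns are indexed from `0`.
-/

namespace Pool.Agent.Results.MP_8815b4_co.CompleteIntersection

open Finset

/-- The rectangle `M(n, l)`, indexed from `0`. -/
def M (n l : ℕ) : Finset (ℕ × ℕ) := range n ×ˢ range l

/-- The `k`-multisets of `M(n, l)`. -/
def multisets (n l k : ℕ) : Finset (Finset (ℕ × ℕ)) :=
  (M n l).powerset.filter (fun A => #A = k ∧ ∀ p ∈ A, ∀ j ≤ p.2, (p.1, j) ∈ A)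

/-- The largest size of a `t`-intersecting family of `k`-multisets of `M(n, l)`. -/
def m (n l k t : ℕ) : ℕ :=
  ((multisets n l k).powerset.filter (fun F => ∀ A ∈ F, ∀ B ∈ F, t ≤ #(A ∩ B))).sup card

/-- The `k`-multisets whose support meets the first `t + 2 i` points in at least `t + i` points. -/
def frankl (n l k t i : ℕ) : Finset (Finset (ℕ × ℕ)) :=
  (multisets n l k).filter (fun A => t + i ≤ #((range (t + 2 * i)).filter (fun x => (x, 0) ∈ A)))

open Pool.Agent.Lib.MP_8815b4_co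

/-- The multiset with multiplicity function `μ`. -/
def toSet (n l : ℕ) (μ : ℕ → ℕ) : Finset (ℕ × ℕ) := (M n l).filter (fun p => p.2 < μ p.1)

/-- The multiplicity function of a multiset. -/
def ofSet (l : ℕ) (A : Finset (ℕ × ℕ)) : ℕ → ℕ :=
  fun x => #((range l).filter (fun j => (x, j) ∈ A))

lemma mem_multisets {n l k : ℕ} {A : Finset (ℕ × ℕ)} : A ∈ multisets n l k ↔
    A ⊆ M n l ∧ #A = k ∧ ∀ p ∈ A, ∀ j ≤ p.2, (p.1, j) ∈ A := by
  rw [multisets, mem_filter, mem_powerset]

lemma mem_toSet {n l : ℕ} {μ : ℕ → ℕ} {p : ℕ × ℕ} :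
    p ∈ toSet n l μ ↔ p.1 < n ∧ p.2 < l ∧ p.2 < μ p.1 := by
  rw [toSet, mem_filter, M, mem_product, mem_range, mem_range, and_assoc]

lemma card_toSet {n l : ℕ} {μ : ℕ → ℕ} (h : ∀ x, μ x ≤ l) :
    #(toSet n l μ) = ∑ x ∈ range n, μ x := by
  rw [toSet, M, card_filter, sum_product]
  refine sum_congr rfl fun x _ => ?_
  rw [← card_filter]
  have : (range l).filter (fun j => j < μ x) = range (μ x) := by
    ext j
    have := h x
    simp only [mem_filter, mem_range]
    omega
  exact (congrArg card this).trans (card_range _)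

lemma toSet_inter (n l : ℕ) (μ ν : ℕ → ℕ) :
    toSet n l μ ∩ toSet n l ν = toSet n l (fun x => min (μ x) (ν x)) := by
  ext p
  simp only [mem_inter, mem_toSet, lt_min_iff]
  tauto

lemma toSet_mem {n l k : ℕ} {μ : ℕ → ℕ} (h : μ ∈ Om n l k) : toSet n l μ ∈ multisets n l k := by
  obtain ⟨m1, -, m3⟩ := mem_Om.1 h
  refine mem_multisets.2 ⟨filter_subset _ _, by rw [card_toSet m3, m1], fun p hp j hj => ?_⟩
  rw [mem_toSet] at hp ⊢
  dsimp only
  omega

lemma mem_iff_lt {n l k : ℕ} {A : Finset (ℕ × ℕ)} (h : A ∈ multisets n l k) (x j : ℕ) :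
    (x, j) ∈ A ↔ j < ofSet l A x := by
  obtain ⟨h1, -, h3⟩ := mem_multisets.1 h
  constructor
  · intro hj
    have hl : j < l := mem_range.1 (mem_product.1 (h1 hj)).2
    have : range (j + 1) ⊆ (range l).filter (fun j => (x, j) ∈ A) := by
      intro y hy
      have := mem_range.1 hy
      exact mem_filter.2 ⟨mem_range.2 (by omega), h3 _ hj y (by dsimp only; omega)⟩
    have := card_le_card this
    rw [card_range] at this
    exact this
  · intro hj
    by_contra hn
    have : (range l).filter (fun j => (x, j) ∈ A) ⊆ range j := by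
      intro y hy
      by_contra hy'
      rw [mem_range] at hy'
      exact hn (h3 _ (mem_filter.1 hy).2 j (by dsimp only; omega))
    have := card_le_card this
    rw [card_range] at this
    exact absurd hj (not_lt.2 this)

lemma ofSet_le (l : ℕ) (A : Finset (ℕ × ℕ)) (x : ℕ) : ofSet l A x ≤ l :=
  (card_filter_le _ _).trans (card_range l).le

lemma toSet_ofSet {n l k : ℕ} {A : Finset (ℕ × ℕ)} (h : A ∈ multisets n l k) :
    toSet n l (ofSet l A) = A := by
  ext ⟨x, j⟩
  rw [mem_toSet, ← mem_iff_lt h]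
  constructor
  · exact fun h => h.2.2
  · intro hj
    have := mem_product.1 ((mem_multisets.1 h).1 hj)
    exact ⟨mem_range.1 this.1, mem_range.1 this.2, hj⟩

lemma ofSet_mem {n l k : ℕ} {A : Finset (ℕ × ℕ)} (h : A ∈ multisets n l k) :
    ofSet l A ∈ Om n l k := by
  refine mem_Om.2 ⟨?_, fun x hx => ?_, ofSet_le l A⟩
  · rw [← card_toSet (ofSet_le l A), toSet_ofSet h, (mem_multisets.1 h).2.1]
  · have := (mem_iff_lt h x 0).2 (Nat.pos_of_ne_zero hx)
    exact mem_range.1 (mem_product.1 ((mem_multisets.1 h).1 this)).1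

lemma toSet_inj {n l k : ℕ} : Set.InjOn (toSet n l) (Om n l k) := by
  intro μ hμ ν hν h
  obtain ⟨-, m2, m3⟩ := mem_Om.1 (mem_coe.1 hμ)
  obtain ⟨-, n2, n3⟩ := mem_Om.1 (mem_coe.1 hν)
  funext x
  have a1 := m2 x
  have a2 := n2 x
  have a3 := m3 x
  have a4 := n3 x
  have b1 : (x, μ x) ∈ toSet n l μ ↔ (x, μ x) ∈ toSet n l ν := by rw [h]
  have b2 : (x, ν x) ∈ toSet n l μ ↔ (x, ν x) ∈ toSet n l ν := by rw [h]
  rw [mem_toSet, mem_toSet] at b1 b2
  dsimp only at b1 b2
  omega

theorem result (n l k t : ℕ) (ht : 1 ≤ t) (htk : t ≤ k) (hn : 2 * k - t ≤ n) (hl : 2 ≤ l)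
    (hlk : l ≤ k - 1) :
    m n l k t = (range (k - t + 1)).sup (fun i => #(frankl n l k t i)) := by
  classical
  apply le_antisymm
  · obtain ⟨i, hi, hmain⟩ := main_fun (n := n) hl (by omega : 2 ≤ k) ht htk (by omega)
    refine Finset.sup_le fun F hF => ?_
    obtain ⟨hF1, hF2⟩ := mem_filter.1 hF
    rw [mem_powerset] at hF1
    refine le_trans ?_ (le_sup (f := fun i => #(frankl n l k t i))
      (mem_range.2 (by omega : i < k - t + 1)))
    have hinj : Set.InjOn (ofSet l) F := by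
      intro A hA B hB h
      rw [← toSet_ofSet (hF1 hA), h, toSet_ofSet (hF1 hB)]
    have h1 := hmain (F.image (ofSet l)) (fun μ hμ => by
        obtain ⟨A, hA, rfl⟩ := mem_image.1 hμ
        exact ofSet_mem (hF1 hA)) (fun μ hμ ν hν => by
        obtain ⟨A, hA, rfl⟩ := mem_image.1 hμ
        obtain ⟨B, hB, rfl⟩ := mem_image.1 hν
        rw [← card_toSet (l := l) (fun x => (min_le_left _ _).trans (ofSet_le l A x)),
          ← toSet_inter, toSet_ofSet (hF1 hA), toSet_ofSet (hF1 hB)]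
        exact hF2 A hA B hB)
    rw [card_image_of_injOn hinj] at h1
    refine h1.trans (card_le_card_of_injOn (toSet n l) (fun μ hμ => ?_)
      (toSet_inj.mono (coe_subset.2 (filter_subset _ _))))
    obtain ⟨h2, h3⟩ := mem_filter.1 (mem_coe.1 hμ)
    refine mem_coe.2 (mem_filter.2 ⟨toSet_mem h2, (mem_filter.1 h3).2.trans (card_le_card ?_)⟩)
    intro x hx
    obtain ⟨h4, h5⟩ := mem_inter.1 hx
    obtain ⟨h6, h7⟩ := mem_filter.1 h4
    exact mem_filter.2 ⟨h5, mem_toSet.2 ⟨mem_range.1 h6, by dsimp only; omega,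
      Nat.pos_of_ne_zero h7⟩⟩
  · refine Finset.sup_le fun i _ => ?_
    refine le_sup (f := card) (mem_filter.2 ⟨mem_powerset.2 (filter_subset _ _), ?_⟩)
    intro A hA B hB
    have h1 := (mem_filter.1 hA).2
    have h2 := (mem_filter.1 hB).2
    have h3 := card_inter_ge (filter_subset (fun x => (x, 0) ∈ A) (range (t + 2 * i)))
      (filter_subset (fun x => (x, 0) ∈ B) (range (t + 2 * i)))
    have h4 : #((range (t + 2 * i)).filter (fun x => (x, 0) ∈ A)
        ∩ (range (t + 2 * i)).filter (fun x => (x, 0) ∈ B)) ≤ #(A ∩ B) := by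
      refine card_le_card_of_injOn (fun x => (x, 0)) (fun x hx => ?_) fun x _ y _ h => ?_
      · obtain ⟨a, b⟩ := mem_inter.1 (mem_coe.1 hx)
        exact mem_coe.2 (mem_inter.2 ⟨(mem_filter.1 a).2, (mem_filter.1 b).2⟩)
      · exact congrArg Prod.fst h
    omega

end Pool.Agent.Results.MP_8815b4_co.CompleteIntersection
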